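import Pool.Agent.W717.UR.Stm

/-! # UR-QST: atoms are mapped to atoms -/

set_option autoImplicit false

namespace Pool.Agent.W597.UR
open Pool.Agent.W717.UR Filter Topology

theorem cyl_mono {y : ℤ → ℤ} {l l' : ℕ} {g : ℤ → ℝ} (h : Cyl y l g) (hl : l ≤ l') :
    Cyl y l' g :=
  ⟨h.1, fun n n' hn => h.2 n n' fun i hi => hn i (hi.trans (by exact_mod_cast hl))⟩

theorem good_of_cyl (hA : S_ADM) {y : ℤ → ℤ} {x : ℕ → ℤ} {R : ℕ → ℕ} (hR : Rad y x R) {l : ℕ}
    {g : ℤ → ℝ} (hg : Cyl y l g) : Good (fun i => Ret y (R i)) g := by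
  refine ⟨l, 1, one_pos, ?_⟩
  have : (fun n => g n / 1) = g := by
    funext n
    rw [div_one]
  rw [this]
  exact hA y x R hR l g hg l le_rfl

theorem qst (hA : S_ADM) : S_QST := by
  classical
  intro y x R hR L V q z z' a hL hV hRec hlim hM l a' ha'
  set ε : ℝ := (a - a') / 3 with hε
  have hε0 : 0 < ε := by
    rw [hε]
    linarith
  set P : Set ℤ := {m : ℤ | ∀ i : ℕ, i < l → y (m + i) = z' i} with hP
  set T : Set ℝ := {v | ∃ (l' : ℕ) (g : ℤ → ℝ), Cyl y l' g ∧ (∀ m ∈ P, g m = 0) ∧ v = L g} with hT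
  have hTb : BddAbove T := by
    refine ⟨V, ?_⟩
    rintro v ⟨l', g, hg, -, rfl⟩
    exact (abs_le.1 (hV l' g hg)).2
  have hTn : T.Nonempty := by
    refine ⟨L fun _ => 0, 0, fun _ => 0, ⟨fun n => ?_, fun _ _ _ => rfl⟩, fun _ _ => rfl, rfl⟩
    rw [abs_zero]
    exact zero_le_one
  obtain ⟨v, ⟨l₀, g₀, hg₀, hz₀, rfl⟩, hv⟩ := exists_lt_of_lt_csSup hTn
    (show sSup T - ε < sSup T by linarith)
  have h1 : ∀ᶠ n : ℕ in (q : Filter ℕ), |L (fun m => g₀ (m + n)) - L g₀| < ε := by
    have := hRec l₀ g₀ (hA y x R hR l₀ g₀ hg₀ l₀ le_rfl)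
    have h2 := (Metric.tendsto_nhds.1 this) ε hε0
    simpa [Real.dist_eq] using h2
  have h2 : ∀ᶠ n : ℕ in (q : Filter ℕ), ∀ i ∈ Finset.range l, z (n + i) = z' i := by
    rw [Filter.eventually_all_finset]
    exact fun i _ => hlim i
  obtain ⟨n, hn1, hn2⟩ := (h1.and h2).exists
  obtain ⟨l₁, h, hh, hsupp, hLh⟩ := hM (n + l) (a - ε) (by linarith)
  have hdis : ∀ m, h m ≠ 0 → g₀ (m + n) = 0 := by
    intro m hm
    refine hz₀ _ ?_
    intro i hi
    have h3 := hsupp m hm (n + i) (by omega)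
    rw [hn2 i (Finset.mem_range.2 hi)] at h3
    rw [← h3]
    congr 1
    push_cast
    ring
  have hgn : Cyl y (l₀ + n) (fun m => g₀ (m + n)) := by
    refine ⟨fun m => hg₀.1 _, fun m m' hm => hg₀.2 _ _ fun i hi => ?_⟩
    have h3 := hm (n + i) (by
      have := abs_add_le (n : ℤ) i
      rw [Nat.abs_cast] at this
      push_cast
      linarith)
    rw [show m + n + i = m + (n + i) by ring, show m' + n + i = m' + (n + i) by ring, h3]
  have hG : Cyl y (l₀ + n + l₁) (fun m => g₀ (m + n) + h m) := by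
    refine ⟨fun m => ?_, fun m m' hm => ?_⟩
    · by_cases hm : h m = 0
      · simp only [hm, add_zero]
        exact hg₀.1 _
      · simp only [hdis m hm, zero_add]
        exact hh.1 _
    · have e1 := (cyl_mono hgn (Nat.le_add_right _ l₁)).2 m m' hm
      have e2 := (cyl_mono hh (Nat.le_add_left l₁ (l₀ + n))).2 m m' hm
      simp only at e1
      simp only [e1, e2]
  have hLG : L (fun m => g₀ (m + n) + h m) = L (fun m => g₀ (m + n)) + L h :=
    hL.add _ _ (good_of_cyl hA hR hgn) (good_of_cyl hA hR hh)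
  have hPcyl : ∀ m m' : ℤ, (∀ i : ℤ, |i| ≤ ((l₀ + n + l₁ + l : ℕ) : ℤ) → y (m + i) = y (m' + i)) →
      (m ∈ P ↔ m' ∈ P) := by
    intro m m' hm
    constructor
    · intro h3 i hi
      rw [← h3 i hi, hm i (by
        rw [Nat.abs_cast]
        push_cast
        omega)]
    · intro h3 i hi
      rw [← h3 i hi, hm i (by
        rw [Nat.abs_cast]
        push_cast
        omega)]
  set G1 : ℤ → ℝ := fun m => if m ∈ P then g₀ (m + n) + h m else 0 with hG1
  set G2 : ℤ → ℝ := fun m => if m ∈ P then 0 else g₀ (m + n) + h m with hG2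
  have hG' := cyl_mono hG (Nat.le_add_right _ l)
  have c1 : Cyl y (l₀ + n + l₁ + l) G1 := by
    refine ⟨fun m => ?_, fun m m' hm => ?_⟩
    · rw [hG1]
      by_cases h3 : m ∈ P
      · simp only [if_pos h3]
        exact hG.1 m
      · simp only [if_neg h3, abs_zero, zero_le_one]
    · have h4 := hPcyl m m' hm
      rw [hG1]
      by_cases h3 : m ∈ P
      · simp only [if_pos h3, if_pos (h4.1 h3)]
        exact hG'.2 m m' hm
      · simp only [if_neg h3, if_neg (fun h5 => h3 (h4.2 h5))]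
  have c2 : Cyl y (l₀ + n + l₁ + l) G2 := by
    refine ⟨fun m => ?_, fun m m' hm => ?_⟩
    · rw [hG2]
      by_cases h3 : m ∈ P
      · simp only [if_pos h3, abs_zero, zero_le_one]
      · simp only [if_neg h3]
        exact hG.1 m
    · have h4 := hPcyl m m' hm
      rw [hG2]
      by_cases h3 : m ∈ P
      · simp only [if_pos h3, if_pos (h4.1 h3)]
      · simp only [if_neg h3, if_neg (fun h5 => h3 (h4.2 h5))]
        exact hG'.2 m m' hm
  have hsum : (fun m => g₀ (m + n) + h m) = fun m => G1 m + G2 m := by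
    funext m
    rw [hG1, hG2]
    by_cases h3 : m ∈ P
    · simp only [if_pos h3, add_zero]
    · simp only [if_neg h3, zero_add]
  have hL2 : L (fun m => g₀ (m + n) + h m) = L G1 + L G2 := by
    rw [hsum]
    exact hL.add _ _ (good_of_cyl hA hR c1) (good_of_cyl hA hR c2)
  have hL3 : L G2 ≤ sSup T := by
    refine le_csSup hTb ⟨_, G2, c2, fun m hm => ?_, rfl⟩
    rw [hG2]
    simp only [if_pos hm]
  refine ⟨_, G1, c1, ?_, ?_⟩
  · intro m hm
    by_contra hcon
    refine hm ?_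
    have h3 : m ∉ P := hcon
    rw [hG1]
    simp only [if_neg h3]
  · have h5 := (abs_lt.1 hn1).1
    have h6 : a' = a - 3 * ε := by
      rw [hε]
      ring
    linarith

end Pool.Agent.W597.UR
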